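import Pool.Agent.NH11.PV.Equiv

/-!
# The averaged pair correlation asymptotic is equivalent to `100%` of the zeros being simple and on
the critical line

The pair correlation conjecture says that `N*(T, a) / (T log T / 2π)` tends to
`G(a) = ∫_0^a (1 - (sin πu / πu)²) du` for every `a > 0`.  Here it is proved, with no hypothesis,
that this asymptotic on average over `a` in `[0, B]` (with `T → ∞` first and then `B → ∞`) holds if
and only if the zeros that are multiple or off the critical line have density zero.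
-/

open Filter Topology MeasureTheory

namespace Pool.Agent.Results.MP_f58427_nt.AveragedIffSimple

/-- multiplicity of `s` as a zero of the Riemann zeta function (order of vanishing at `s`) -/
noncomputable def zmult (s : ℂ) : ℕ := analyticOrderNatAt riemannZeta s

/-- the nontrivial zeros of `ζ` -/
def ZZ : Set ℂ := {s : ℂ | riemannZeta s = 0 ∧ 0 < s.re ∧ s.re < 1}

/-- the counting function `N*(T, a)` of the problem: the number of ordered pairs `(γ, γ')` of
ordinates of nontrivial zeros, counted with multiplicity, with `0 < γ ≤ T` and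
`0 < γ - γ' ≤ 2πa / log T` -/
noncomputable def Nstar (T a : ℝ) : ℕ :=
  ∑ᶠ p ∈ {p : ℂ × ℂ | p.1 ∈ ZZ ∧ p.2 ∈ ZZ ∧ 0 < p.1.im ∧ p.1.im ≤ T ∧
    0 < p.1.im - p.2.im ∧ p.1.im - p.2.im ≤ 2 * Real.pi * a / Real.log T}, zmult p.1 * zmult p.2

/-- the number of nontrivial zeros with ordinate in `(0, T]`, counted with multiplicity, that are
off the critical line or multiple -/
noncomputable def Nbad (T : ℝ) : ℕ :=
  ∑ᶠ s ∈ {s : ℂ | s ∈ ZZ ∧ 0 < s.im ∧ s.im ≤ T ∧ (s.re ≠ 1 / 2 ∨ deriv riemannZeta s = 0)}, zmult s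

/-- the function `G(a) = ∫_0^a (1 - (sin πu / πu)²) du` of the conjecture -/
noncomputable def G (a : ℝ) : ℝ := ∫ u in (0 : ℝ)..a, (1 - Real.sinc (Real.pi * u) ^ 2)

/-- **The averaged pair correlation asymptotic holds if and only if almost all zeros are simple and
on the critical line.**  No hypothesis is assumed. -/
theorem result :
    (∀ ε : ℝ, 0 < ε → ∃ B₀ : ℝ, 0 < B₀ ∧ ∀ B : ℝ, B₀ ≤ B → ∃ T₀ : ℝ, ∀ T : ℝ, T₀ ≤ T →
      |(1 / B) * ∫ a in (0 : ℝ)..B, ((Nstar T a : ℝ) / (T * Real.log T / (2 * Real.pi)) - G a)|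
        ≤ ε) ↔
    Tendsto (fun T => (Nbad T : ℝ) / (T * Real.log T / (2 * Real.pi))) atTop (𝓝 0) :=
  Pool.Agent.NH11.PV.equiv

end Pool.Agent.Results.MP_f58427_nt.AveragedIffSimple
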