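import Pool.Agent.NH11.PV.Fin

/-!
# The primitive of the pair counting function has bounded discrepancy, unconditionally

The pair correlation conjecture says that `N*(T, a) / (T log T / 2π)` tends to
`G(a) = ∫_0^a (1 - (sin πu / πu)²) du` for every `a > 0`.  Here the integral of the difference over
any window `[A, B]` is computed, with no hypothesis, up to an error bounded by an absolute
constant: it is `-(B - A) / 2` times `Neq(T) / (T log T / 2π) - 1`, where `Neq(T)` counts the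
ordered pairs of equal ordinates.
-/

open MeasureTheory

namespace Pool.Agent.Results.MP_f58427_nt.BoundedPrimitive

/-- multiplicity of `s` as a zero of the Riemann zeta function (order of vanishing at `s`) -/
noncomputable def zmult (s : ℂ) : ℕ := analyticOrderNatAt riemannZeta s

/-- the nontrivial zeros of `ζ` -/
def ZZ : Set ℂ := {s : ℂ | riemannZeta s = 0 ∧ 0 < s.re ∧ s.re < 1}

/-- the counting function `N*(T, a)` of the problem: the number of ordered pairs `(γ, γ')` of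
ordinates of nontrivial zeros, counted with multiplicity, with `0 < γ ≤ T` and
`0 < γ - γ' ≤ 2πa / log T` -/
noncomputable def Nstar (T a : ℝ) : ℕ :=
  ∑ᶠ p ∈ {p : ℂ × ℂ | p.1 ∈ ZZ ∧ p.2 ∈ ZZ ∧ 0 < p.1.im ∧ p.1.im ≤ T ∧
    0 < p.1.im - p.2.im ∧ p.1.im - p.2.im ≤ 2 * Real.pi * a / Real.log T}, zmult p.1 * zmult p.2

/-- the number of ordered pairs of equal ordinates in `(0, T]`, counted with multiplicity -/
noncomputable def Neq (T : ℝ) : ℕ :=
  ∑ᶠ p ∈ {p : ℂ × ℂ | p.1 ∈ ZZ ∧ p.2 ∈ ZZ ∧ 0 < p.1.im ∧ p.1.im ≤ T ∧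
    p.1.im = p.2.im}, zmult p.1 * zmult p.2

/-- the function `G(a) = ∫_0^a (1 - (sin πu / πu)²) du` of the conjecture -/
noncomputable def G (a : ℝ) : ℝ := ∫ u in (0 : ℝ)..a, (1 - Real.sinc (Real.pi * u) ^ 2)

/-- **The primitive of the pair counting function has bounded discrepancy.**  There is an absolute
constant `C` such that for all `0 ≤ A ≤ B` and all `T ≥ T₀(A, B)`,
`|∫_A^B (N*(T, a) / (T log T / 2π) - G(a)) da + (B - A) / 2 (Neq(T) / (T log T / 2π) - 1)| ≤ C`.
No hypothesis is assumed. -/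
theorem result : ∃ C : ℝ, 0 < C ∧ ∀ A B : ℝ, 0 ≤ A → A ≤ B → ∃ T₀ : ℝ, ∀ T : ℝ, T₀ ≤ T →
    IntervalIntegrable (fun a => (Nstar T a : ℝ)) volume A B ∧
    |(∫ a in A..B, ((Nstar T a : ℝ) / (T * Real.log T / (2 * Real.pi)) - G a)) +
      (B - A) / 2 * ((Neq T : ℝ) / (T * Real.log T / (2 * Real.pi)) - 1)| ≤ C := by
  obtain ⟨C, hC, h⟩ := Pool.Agent.NH11.PV.disc
  obtain ⟨C', hC', h'⟩ := Pool.Agent.NH11.PV.main
  refine ⟨C', hC', fun A B hA hAB => ?_⟩
  obtain ⟨T1, _, h1⟩ := h B (hA.trans hAB)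
  obtain ⟨T2, _, h2⟩ := h' A B hA hAB
  refine ⟨max T1 T2, fun T hT => ?_⟩
  obtain ⟨i1, _⟩ := h1 T ((le_max_left _ _).trans hT)
  have g2 := h2 T ((le_max_right _ _).trans hT)
  refine ⟨?_, g2⟩
  exact i1.mono_set (by
    rw [Set.uIcc_of_le (hA.trans hAB), Set.uIcc_of_le hAB]
    exact Set.Icc_subset_Icc_left hA)

end Pool.Agent.Results.MP_f58427_nt.BoundedPrimitive
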