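import Pool.Agent.NH10.SV.Fc

/-!
# The converse of the theorem of Gallagher and Mueller, without assuming RH, and from upper bounds

Gallagher and Mueller: if the Riemann hypothesis and the pair correlation asymptotic both hold, then
`∫_1^X (ψ((1+δ)x) - ψ(x) - δx)² dx / x² ~ δ log(1/δ) log(X √δ)` for `X⁻¹ ≤ δ ≤ X^(-ε)`.

Here the converse is proved, with no hypothesis: this asymptotic formula for the primes implies both
the Riemann hypothesis and the pair correlation asymptotic.  Moreover upper bounds suffice: it is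
enough that, with `T = 1/δ`, the upper limit of the normalised mean square over the window
`T^a ≤ x ≤ T^b` is at most `b - a`, for all `1 ≤ a < b`.
-/

open Filter Topology MeasureTheory

namespace Pool.Agent.Results.MP_f58427_nt.PrimeVariance

/-- multiplicity of `s` as a zero of the Riemann zeta function (order of vanishing at `s`) -/
noncomputable def zmult (s : ℂ) : ℕ := analyticOrderNatAt riemannZeta s

/-- the nontrivial zeros of `ζ` -/
def ZZ : Set ℂ := {s : ℂ | riemannZeta s = 0 ∧ 0 < s.re ∧ s.re < 1}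

/-- the counting function `N*(T, a)` of the problem: the number of ordered pairs `(γ, γ')` of
ordinates of nontrivial zeros, counted with multiplicity, with `0 < γ ≤ T` and
`0 < γ - γ' ≤ 2πa / log T` -/
noncomputable def Nstar (T a : ℝ) : ℕ :=
  ∑ᶠ p ∈ {p : ℂ × ℂ | p.1 ∈ ZZ ∧ p.2 ∈ ZZ ∧ 0 < p.1.im ∧ p.1.im ≤ T ∧
    0 < p.1.im - p.2.im ∧ p.1.im - p.2.im ≤ 2 * Real.pi * a / Real.log T}, zmult p.1 * zmult p.2

/-- the pair correlation asymptotic, Q1 of the problem -/
def PairCorrelation : Prop := ∀ a : ℝ, 0 < a →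
  Tendsto (fun T : ℝ => (Nstar T a : ℝ) / (T * Real.log T)) atTop
    (𝓝 (1 / (2 * Real.pi) *
      ∫ u in (0 : ℝ)..a, (1 - (Real.sin (Real.pi * u) / (Real.pi * u)) ^ 2)))

/-- the mean square `∫_1^X (ψ((1+δ)x) - ψ(x) - δx)² dx / x²` -/
noncomputable def V (X δ : ℝ) : ℝ :=
  ∫ x in (1 : ℝ)..X, (Chebyshev.psi ((1 + δ) * x) - Chebyshev.psi x - δ * x) ^ 2 / x ^ 2

/-- the formula of Gallagher and Mueller: for every `0 < ε ≤ 1`, as `X → ∞`, uniformly for
`X⁻¹ ≤ δ ≤ X^(-ε)`, `V(X, δ) ~ δ log(1/δ) log(X √δ)` -/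
def GallagherMueller : Prop := ∀ ε : ℝ, 0 < ε → ε ≤ 1 → ∀ η : ℝ, 0 < η → ∃ X₀ : ℝ, ∀ X : ℝ,
  X₀ ≤ X → ∀ δ : ℝ, X ^ (-1 : ℝ) ≤ δ → δ ≤ X ^ (-ε) →
    |V X δ - δ * Real.log (1 / δ) * Real.log (X * Real.sqrt δ)| ≤
      η * (δ * Real.log (1 / δ) * Real.log (X * Real.sqrt δ))

/-- the normalised mean square over the window `[T^a, T^b]`, with `δ = 1/T` -/
noncomputable def J (T a b : ℝ) : ℝ := T / Real.log T ^ 2 *
  ∫ x in (T ^ a)..(T ^ b), (Chebyshev.psi (x + x / T) - Chebyshev.psi x - x / T) ^ 2 / x ^ 2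

/-- the upper bounds: `limsup_{T → ∞} J(T; a, b) ≤ b - a` for all `1 ≤ a < b` -/
def UpperBounds : Prop := ∀ a b : ℝ, 1 ≤ a → a < b → ∀ ε : ℝ, 0 < ε →
  ∀ᶠ T in atTop, J T a b ≤ b - a + ε

lemma pair_iff : PairCorrelation ↔ ∀ y : ℝ, 0 < y →
    Tendsto (fun T => (Pool.Agent.NH11.PV.Nstar T y : ℝ) / Pool.Agent.Y744.Xf T) atTop
      (𝓝 (Pool.Agent.Y744.gp y)) := by
  have hpi := Real.pi_pos
  refine forall_congr' fun y => forall_congr' fun hy => ?_
  have e1 : ∫ u in (0 : ℝ)..y, (1 - (Real.sin (Real.pi * u) / (Real.pi * u)) ^ 2) =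
      Pool.Agent.Y744.gp y := by
    have h := Pool.Agent.Y744.G.P_eq 0 y
    unfold Pool.Agent.Y744.G.P Pool.Agent.Y744.pr at h
    rw [if_pos ⟨le_rfl, hy.le⟩, Set.indicator_of_mem (show (0 : ℝ) ∈ Set.Icc 0 y from
      ⟨le_rfl, hy.le⟩), Pool.Agent.Y744.gp_zero, sub_zero] at h
    linarith
  have e2 : ∀ T : ℝ, (Nstar T y : ℝ) / (T * Real.log T) = 1 / (2 * Real.pi) *
      ((Pool.Agent.NH11.PV.Nstar T y : ℝ) / Pool.Agent.Y744.Xf T) := by
    intro T
    show (Nstar T y : ℝ) / (T * Real.log T) =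
      1 / (2 * Real.pi) * ((Nstar T y : ℝ) / (T * Real.log T / (2 * Real.pi)))
    rw [div_div_eq_mul_div, ← mul_div_assoc]
    congr 1
    field_simp
  simp_rw [e2]
  rw [e1]
  constructor
  · intro h
    have h2 := h.const_mul (2 * Real.pi)
    have e3 : 2 * Real.pi * (1 / (2 * Real.pi) * Pool.Agent.Y744.gp y) =
        Pool.Agent.Y744.gp y := by field_simp
    rw [e3] at h2
    refine h2.congr fun T => ?_
    rw [← mul_assoc]
    have : 2 * Real.pi * (1 / (2 * Real.pi)) = 1 := by field_simp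
    rw [this, one_mul]
  · intro h
    exact h.const_mul _

/-- **The converse of the theorem of Gallagher and Mueller.**  The following are equivalent: the
Riemann hypothesis together with the pair correlation asymptotic; the asymptotic formula of
Gallagher and Mueller for the primes in short intervals; the upper bounds.  No hypothesis is
assumed. -/
theorem result : List.TFAE [RiemannHypothesis ∧ PairCorrelation, GallagherMueller, UpperBounds] := by
  have h := Pool.Agent.NH10.SV.final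
  rw [← pair_iff] at h
  exact h

end Pool.Agent.Results.MP_f58427_nt.PrimeVariance
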