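import Pool.Agent.NH11.SW.Lim

/-!
# Lower bounds on sparse windows already imply the pair correlation conjecture

Let `G(a) = ∫_0^a (1 - (sin πu / πu)²) du`.  The pair correlation conjecture says that
`N*(T, a) / (T log T / 2π)` tends to `G(a)` for every `a > 0`.  Here it is proved, with no
hypothesis, that the conjecture holds if and only if the lower bound
`liminf N*(T, a) / (T log T / 2π) ≥ G(a) - C exp (-δ r_k)` holds for the `a` in the windows
`[a_k, a_k + r_k]` of one long system of windows (`∑ (r_k / a_k)² = ∞`; the windows may have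
density zero).  The same is proved along any filter `l ≤ atTop`, for instance along a sequence of
heights `T`.
-/

open Filter Topology MeasureTheory

namespace Pool.Agent.Results.MP_f58427_nt.SparseLowerBound

/-- multiplicity of `s` as a zero of the Riemann zeta function (order of vanishing at `s`) -/
noncomputable def zmult (s : ℂ) : ℕ := analyticOrderNatAt riemannZeta s

/-- the nontrivial zeros of `ζ` -/
def ZZ : Set ℂ := {s : ℂ | riemannZeta s = 0 ∧ 0 < s.re ∧ s.re < 1}

/-- the counting function `N*(T, a)` of the problem: the number of ordered pairs `(γ, γ')` of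
ordinates of nontrivial zeros, counted with multiplicity, with `0 < γ ≤ T` and
`0 < γ - γ' ≤ 2πa / log T` -/
noncomputable def Nstar (T a : ℝ) : ℕ :=
  ∑ᶠ p ∈ {p : ℂ × ℂ | p.1 ∈ ZZ ∧ p.2 ∈ ZZ ∧ 0 < p.1.im ∧ p.1.im ≤ T ∧
    0 < p.1.im - p.2.im ∧ p.1.im - p.2.im ≤ 2 * Real.pi * a / Real.log T}, zmult p.1 * zmult p.2

/-- the function `G(a) = ∫_0^a (1 - (sin πu / πu)²) du` of the conjecture -/
noncomputable def G (a : ℝ) : ℝ := ∫ u in (0 : ℝ)..a, (1 - Real.sinc (Real.pi * u) ^ 2)

/-- a long system of windows `[a_k, a_k + r_k]`: the windows are disjoint and ordered, none is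
longer than its distance from the origin, and `∑ (r_k / a_k)²` diverges -/
def LongSystem (a r : ℕ → ℝ) : Prop :=
  (∀ k, 0 < r k) ∧ (∀ k, r k ≤ a k) ∧ (∀ k, a k + r k ≤ a (k + 1)) ∧
    ¬ Summable fun k => (r k / a k) ^ 2

/-- **The pair correlation asymptotic is equivalent to a lower bound on sparse windows.**  No
hypothesis is assumed. -/
theorem result (l : Filter ℝ) (hl : l ≤ atTop) (C δ : ℝ) (hC : 0 ≤ C) (hδ : 0 < δ) (a r : ℕ → ℝ)
    (har : LongSystem a r) :
    (∀ x : ℝ, 0 < x →
      Tendsto (fun T => (Nstar T x : ℝ) / (T * Real.log T / (2 * Real.pi))) l (𝓝 (G x))) ↔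
    ∀ k : ℕ, ∀ x ∈ Set.Icc (a k) (a k + r k), ∀ ε : ℝ, 0 < ε → ∀ᶠ T in l,
      G x - C * Real.exp (-(δ * r k)) - ε ≤ (Nstar T x : ℝ) / (T * Real.log T / (2 * Real.pi)) := by
  obtain ⟨h1, h2, h3, h4⟩ := har
  constructor
  · intro h k x hx ε hε
    have hx0 : 0 < x := lt_of_lt_of_le ((h1 k).trans_le (h2 k)) hx.1
    have h5 : G x - C * Real.exp (-(δ * r k)) - ε < G x := by
      have := Real.exp_pos (-(δ * r k))
      nlinarith [mul_nonneg hC this.le]
    filter_upwards [(tendsto_order.1 (h x hx0)).1 _ h5] with T hT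
    exact hT.le
  · intro h x hx
    exact Pool.Agent.NH11.SW.crit hl hC hδ h1 h2 h3 h4 h hx

end Pool.Agent.Results.MP_f58427_nt.SparseLowerBound
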